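import Pool.Agent.Run7.h96.IX.Stm

/-! Piece MM of the project IX of helper96: `M` is attained and is an upper bound. -/

set_option autoImplicit false

namespace Run7.h586.IX

open Run7.h96.IX

theorem t_MM : S_MM := by
  intro n lam c
  have hle : ∀ m, Good n lam c m → m ≤ 2 ^ n := by
    rintro m ⟨A, B, hA, -, -⟩
    rw [← hA]
    calc A.card ≤ (Finset.univ : Finset (Finset (Fin n))).card := Finset.card_le_univ _
      _ = 2 ^ n := by simp
  have hbdd : BddAbove {q | ∃ m, Good n lam c m ∧ q = m ^ 2} := by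
    refine ⟨(2 ^ n) ^ 2, ?_⟩
    rintro q ⟨m, hm, rfl⟩
    exact Nat.pow_le_pow_left (hle m hm) 2
  refine ⟨fun m hm => ⟨hle m hm, le_csSup hbdd ⟨m, hm, rfl⟩⟩, ?_⟩
  intro hc hlam
  obtain ⟨S, hS⟩ : ∃ S : Finset (Fin n), S.card = lam := by
    obtain ⟨S, -, hS⟩ := Finset.exists_subset_card_eq
      (s := (Finset.univ : Finset (Fin n))) (n := lam) (by simpa using hlam)
    exact ⟨S, hS⟩
  have h1 : Good n lam c 1 := by
    refine ⟨{S}, {S}, by simp, by simp, ?_⟩
    have h3 : cnt lam ({S} : Finset (Finset (Fin n))) {S} = 1 := by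
      unfold cnt
      rw [Finset.singleton_product_singleton, Finset.filter_singleton]
      simp [hS]
    rw [h3]
    push_cast
    linarith
  have hmem := Nat.sSup_mem (s := {q | ∃ m, Good n lam c m ∧ q = m ^ 2}) ⟨1 ^ 2, 1, h1, rfl⟩ hbdd
  obtain ⟨m, hm, he⟩ := hmem
  have he' : M n lam c = m ^ 2 := he
  refine ⟨m, ?_, hm, he'⟩
  have h2 : 1 ^ 2 ≤ M n lam c := le_csSup hbdd ⟨1, h1, rfl⟩
  rw [he'] at h2
  by_contra h
  have h4 : m = 0 := by omega
  subst h4
  simp at h2

end Run7.h586.IX
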